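import Pool.Agent.H20.ER3.Lib
import Pool.Agent.H20.ER3.Targets

/-!
# Operation C, rows PA and PB: prisms in index form
-/

set_option autoImplicit false

namespace Pool.Agent.H14.ER3

open Pool.Agent.H48.ER Pool.Agent.H52.ER2 Pool.Agent.H66.ER2 Pool.Agent.H20.ER3

theorem pf_PA : U_PA := by
  intro W M a b n P h
  have hp : ∀ i, ∃ g : ℕ → W, PF M (n i) g ∧ g 0 = a i ∧ g (n i) = b i ∧ P i = seg g 0 (n i) :=
    fun i => IP.pf (h.ip i)
  choose g hg g0 gn hP using hp
  have hm : ∀ i k, k ≤ n i → g i k ∈ P i := fun i k hk => by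
    rw [hP]; exact mem_seg (Nat.zero_le k) hk
  have hne : ∀ i j k l, k ≤ n i → l ≤ n j → g i k = g j l → i = j := by
    intro i j k l hk hl e
    by_contra hij
    exact Set.disjoint_left.1 (h.dis i j hij) (hm i k hk) (e ▸ hm j l hl)
  refine ⟨g, ⟨h.pos, ?_, ?_⟩, fun i => (g0 i).symm, fun i => (gn i).symm, hP⟩
  · intro i j k l hk hl e
    obtain rfl := hne i j k l hk hl e
    exact ⟨rfl, (hg i).inj _ _ hk hl e⟩
  · intro i j k l hk hl
    by_cases hij : i = j
    · subst hij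
      rw [(hg i).adj _ _ hk hl]
      constructor
      · exact fun e => Or.inl ⟨rfl, e⟩
      · rintro (⟨_, e⟩ | ⟨e, _⟩)
        · exact e
        · exact absurd rfl e
    · rw [h.adj i j hij _ (hm i k hk) _ (hm j l hl)]
      have e1 : ∀ i k, k ≤ n i → (g i k = a i ↔ k = 0) := fun i k hk =>
        ⟨fun e => (hg i).inj _ _ hk (Nat.zero_le _) (e.trans (g0 i).symm), fun e => e ▸ g0 i⟩
      have e2 : ∀ i k, k ≤ n i → (g i k = b i ↔ k = n i) := fun i k hk =>
        ⟨fun e => (hg i).inj _ _ hk le_rfl (e.trans (gn i).symm), fun e => e ▸ gn i⟩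
      rw [e1 i k hk, e1 j l hl, e2 i k hk, e2 j l hl]
      constructor
      · exact fun e => Or.inr ⟨hij, e⟩
      · rintro (⟨e, _⟩ | ⟨_, e⟩)
        · exact absurd e hij
        · exact e

theorem pf_PB : U_PB := by
  intro W M n g h
  have hpf : ∀ i, PF M (n i) (g i) := fun i =>
    ⟨fun k l hk hl e => (h.inj i i k l hk hl e).2, fun k l hk hl => by
      rw [h.adj i i k l hk hl]
      constructor
      · rintro (⟨_, e⟩ | ⟨e, _⟩)
        · exact e
        · exact absurd rfl e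
      · exact fun e => Or.inl ⟨rfl, e⟩⟩
  refine ⟨fun i => (hpf i).ip, h.pos, ?_, ?_⟩
  · intro i j hij
    rw [Set.disjoint_left]
    rintro v ⟨k, _, hk, rfl⟩ ⟨l, _, hl, e⟩
    exact hij (h.inj i j k l hk hl e.symm).1
  · rintro i j hij _ ⟨k, _, hk, rfl⟩ _ ⟨l, _, hl, rfl⟩
    have e1 : ∀ i k, k ≤ n i → (g i k = g i 0 ↔ k = 0) := fun i k hk =>
      ⟨fun e => (h.inj i i _ _ hk (Nat.zero_le _) e).2, fun e => by rw [e]⟩
    have e2 : ∀ i k, k ≤ n i → (g i k = g i (n i) ↔ k = n i) := fun i k hk =>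
      ⟨fun e => (h.inj i i _ _ hk le_rfl e).2, fun e => by rw [e]⟩
    rw [h.adj i j k l hk hl, e1 i k hk, e1 j l hl, e2 i k hk, e2 j l hl]
    constructor
    · rintro (⟨e, _⟩ | ⟨_, e⟩)
      · exact absurd e hij
      · exact e
    · exact fun e => Or.inr ⟨hij, e⟩

end Pool.Agent.H14.ER3
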